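import Pool.Agent.J4H4.NG.Stm
import Pool.Agent.J4H8.UN.Str

/-!
# Project NG of helper4: (REP), the representation of `H_{-b}` (helper21; after J4H8/DN/H.lean and J4H8/UN/Str.lean)
-/

set_option autoImplicit false

namespace Pool.Agent.J4H21.NG

open Complex MeasureTheory Filter Topology Set
open scoped ComplexConjugate
open Pool.Agent.W169.HF (heat Slow)
open Pool.Agent.J4H1.JP (Xi Xi_neg)
open Pool.Agent.J4H8.DN (slow_Xi Xi_conj int_Ph_gauss Xi_int Phi_eq)
open Pool.Agent.J4H2.DN (Phi Hd)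
open Pool.Agent.Helper242.KK (Ph Ph_pos continuous_Ph)
open Pool.Agent.J4H8.UN (slow_heat heat_neg heat_conj)
open Pool.Agent.J4H4.NG

theorem gauss_osc (x : ℝ) : ∫ v : ℝ, cexp (I * ((2 * x : ℝ) : ℂ) * v) * cexp (-1 * (v : ℂ) ^ 2) =
    ((Real.sqrt Real.pi * Real.exp (-x ^ 2) : ℝ) : ℂ) := by
  have h3 := fourierIntegral_gaussian (b := 1) (by simp) ((2 * x : ℝ) : ℂ)
  rw [h3]
  have hpi : ((Real.pi : ℂ) / 1) ^ (1 / 2 : ℂ) = ((Real.sqrt Real.pi : ℝ) : ℂ) := by
    rw [div_one, Real.sqrt_eq_rpow, Complex.ofReal_cpow Real.pi_pos.le]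
    push_cast
    rfl
  have e : (-((2 * x : ℝ) : ℂ) ^ 2 / (4 * 1)) = ((-x ^ 2 : ℝ) : ℂ) := by
    push_cast
    ring
  rw [hpi, e, ← Complex.ofReal_exp, ← Complex.ofReal_mul]

theorem EE_int {a : ℝ} (ha : 0 < a) (w : ℂ) :
    EE a w = ∫ u : ℝ, ((Ph u * Real.exp (-a * u ^ 2) : ℝ) : ℂ) * cexp (w * u) := by
  set q := Real.sqrt a with hq
  have hq2 : q ^ 2 = a := Real.sq_sqrt ha.le
  unfold EE
  have h1 : ∀ v : ℝ, ((Real.exp (-v ^ 2) : ℝ) : ℂ) * Xi (w + ((2 * Real.sqrt a * v : ℝ) : ℂ) * I) =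
      ∫ u : ℝ, (cexp (I * ((2 * (q * u) : ℝ) : ℂ) * v) * cexp (-1 * (v : ℂ) ^ 2)) *
        (((Ph u : ℝ) : ℂ) * cexp (w * u)) := by
    intro v
    rw [Xi_int, ← integral_const_mul]
    congr 1
    funext u
    have e : cexp ((w + ((2 * Real.sqrt a * v : ℝ) : ℂ) * I) * u) =
        cexp (w * u) * cexp (I * ((2 * (q * u) : ℝ) : ℂ) * v) := by
      rw [← Complex.exp_add]
      congr 1
      push_cast
      rw [hq]
      ring
    have e' : ((Real.exp (-v ^ 2) : ℝ) : ℂ) = cexp (-1 * (v : ℂ) ^ 2) := by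
      rw [Complex.ofReal_exp]
      congr 1
      push_cast
      ring
    rw [e, e']
    ring
  simp_rw [h1]
  rw [integral_integral_swap]
  · have h2 : ∀ u : ℝ, ∫ v : ℝ, (cexp (I * ((2 * (q * u) : ℝ) : ℂ) * v) * cexp (-1 * (v : ℂ) ^ 2)) *
        (((Ph u : ℝ) : ℂ) * cexp (w * u)) =
        (Real.sqrt Real.pi : ℂ) * (((Ph u * Real.exp (-a * u ^ 2) : ℝ) : ℂ) * cexp (w * u)) := by
      intro u
      rw [integral_mul_const, gauss_osc]
      have : -(q * u) ^ 2 = -a * u ^ 2 := by rw [mul_pow, hq2]; ring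
      rw [this]
      push_cast
      ring
    simp_rw [h2]
    rw [integral_const_mul, ← mul_assoc]
    have : ((1 / Real.sqrt Real.pi : ℝ) : ℂ) * (Real.sqrt Real.pi : ℂ) = 1 := by
      rw [← ofReal_mul, one_div, inv_mul_cancel₀ (Real.sqrt_pos.2 Real.pi_pos).ne', ofReal_one]
    rw [this, one_mul]
  · -- integrability on the product
    have i1 : Integrable (fun v : ℝ => Real.exp (-1 * v ^ 2)) := integrable_exp_neg_mul_sq one_pos
    have i2 : Integrable (fun u : ℝ => ‖((Ph u * Real.exp (0 * u ^ 2) : ℝ) : ℂ) * cexp (w * u)‖) :=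
      (int_Ph_gauss 0 w).norm
    refine (i1.mul_prod i2).mono' ?_ (Eventually.of_forall fun z => ?_)
    · have : Continuous (Function.uncurry fun (v u : ℝ) =>
          (cexp (I * ((2 * (q * u) : ℝ) : ℂ) * v) * cexp (-1 * (v : ℂ) ^ 2)) *
            (((Ph u : ℝ) : ℂ) * cexp (w * u))) := by
        have := continuous_Ph
        unfold Function.uncurry
        fun_prop
      exact this.aestronglyMeasurable
    · obtain ⟨v, u⟩ := z
      simp only [Function.uncurry]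
      rw [norm_mul, norm_mul]
      have e1 : ‖cexp (I * ((2 * (q * u) : ℝ) : ℂ) * v)‖ = 1 := by
        rw [show I * ((2 * (q * u) : ℝ) : ℂ) * v = ((2 * (q * u) * v : ℝ) : ℂ) * I by push_cast; ring,
          Complex.norm_exp_ofReal_mul_I]
      have e2 : ‖cexp (-1 * (v : ℂ) ^ 2)‖ = Real.exp (-1 * v ^ 2) := by
        rw [show (-1 * (v : ℂ) ^ 2) = ((-1 * v ^ 2 : ℝ) : ℂ) by push_cast; ring, ← Complex.ofReal_exp,
          norm_real, Real.norm_of_nonneg (Real.exp_pos _).le]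
      rw [e1, e2, one_mul]
      simp

/-- the formula for `H_t` on the whole line, every real `t` -/
theorem Hd_int (t : ℝ) (z : ℂ) : Hd t z = (1 / 8) * ∫ u : ℝ,
    ((Ph u * Real.exp (t / 4 * u ^ 2) : ℝ) : ℂ) * cexp (I * z / 2 * u) := by
  have h1 : (∫ u : ℝ, ((Ph u * Real.exp (t / 4 * u ^ 2) : ℝ) : ℂ) * cexp (I * z / 2 * u)) =
      2 * ∫ x : ℝ, ((Ph (2 * x) * Real.exp (t / 4 * (2 * x) ^ 2) : ℝ) : ℂ) *
        cexp (I * z / 2 * ((2 * x : ℝ) : ℂ)) := by
    have := Measure.integral_comp_mul_left (fun u : ℝ => ((Ph u * Real.exp (t / 4 * u ^ 2) : ℝ) : ℂ) *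
      cexp (I * z / 2 * u)) 2
    rw [this]
    rw [abs_of_pos (by norm_num : (0 : ℝ) < 2⁻¹), Complex.real_smul]
    push_cast
    ring
  set g : ℝ → ℂ := fun x => ((Real.exp (t * x ^ 2) * Phi x : ℝ) : ℂ) * cexp (I * z * x) with hg
  have h2 : ∀ x : ℝ, ((Ph (2 * x) * Real.exp (t / 4 * (2 * x) ^ 2) : ℝ) : ℂ) *
        cexp (I * z / 2 * ((2 * x : ℝ) : ℂ)) = 2 * g x := by
    intro x
    simp only [hg]
    rw [Phi_eq]
    unfold Ph
    have e1 : 2 * x / 2 = x := by ring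
    have e2 : t / 4 * (2 * x) ^ 2 = t * x ^ 2 := by ring
    have e3 : I * z / 2 * ((2 * x : ℝ) : ℂ) = I * z * x := by push_cast; ring
    rw [e1, e2, e3]
    push_cast
    ring
  have hint : Integrable g := by
    have h3 := (int_Ph_gauss (t / 4) (I * z / 2)).comp_mul_left' (two_ne_zero)
    have h4 := h3.const_mul (1 / 2)
    refine h4.congr (Eventually.of_forall fun x => ?_)
    have := h2 x
    simp only at this ⊢
    rw [this]; ring
  rw [h1]
  simp_rw [h2]
  rw [integral_const_mul]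
  have h5 : ∫ x : ℝ, g x = ∫ x in Ioi (0 : ℝ), (g (-x) + g x) := by
    rw [integral_add, integral_comp_neg_Ioi (0 : ℝ) g, neg_zero,
      ← intervalIntegral.integral_Iic_add_Ioi hint.integrableOn hint.integrableOn]
    · exact hint.comp_neg.integrableOn
    · exact hint.integrableOn
  rw [h5]
  have h6 : ∀ x : ℝ, g (-x) + g x = 2 * (((Real.exp (t * x ^ 2) * Phi x : ℝ) : ℂ) * Complex.cos (z * x)) := by
    intro x
    simp only [hg]
    have e1 : Phi (-x) = Phi x := by rw [Phi_eq, Phi_eq, Pool.Agent.Helper242.RK.Phi_even]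
    rw [e1, Complex.cos]
    have e2 : (-x) ^ 2 = x ^ 2 := by ring
    rw [e2]
    have e3 : I * z * ((-x : ℝ) : ℂ) = -(z * x) * I := by push_cast; ring
    have e4 : I * z * (x : ℂ) = z * x * I := by ring
    rw [e3, e4]
    ring
  simp_rw [h6]
  rw [integral_const_mul]
  unfold Hd
  ring

/-- `Xi` on the other axis -/
theorem slow_G : Slow (fun s : ℂ => Xi (I * s)) := by
  refine ⟨slow_Xi.1.comp (by fun_prop), fun δ hδ => ?_⟩
  obtain ⟨K, hK, h⟩ := slow_Xi.2 δ hδ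
  refine ⟨K, hK, fun z => ?_⟩
  have := h (I * z)
  rwa [norm_mul, norm_I, one_mul] at this

theorem EE_heat (a : ℝ) (w : ℂ) : EE a w = heat a (fun s : ℂ => Xi (I * s)) (-I * w) := by
  unfold EE heat
  congr 1
  refine integral_congr_ae (Eventually.of_forall fun v => ?_)
  simp only
  congr 2
  rw [mul_add, show I * (-I * w) = w by ring_nf; rw [I_sq]; ring]
  ring

theorem t_REP : S_REP := by
  intro b hb
  have hb4 : 0 < b / 4 := by positivity
  have hGn : ∀ s : ℂ, Xi (I * -s) = Xi (I * s) := fun s => by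
    rw [mul_neg, Xi_neg]
  have hGc : ∀ s : ℂ, Xi (I * conj s) = conj (Xi (I * s)) := fun s => by
    rw [← Xi_conj, map_mul, conj_I, neg_mul, Xi_neg]
  refine ⟨fun z => ?_, ?_, fun w => ?_, fun w => ?_⟩
  · rw [Hd_int, EE_int hb4]
    congr 2
    funext u
    congr 4
    ring
  · have h1 : EE (b / 4) = fun w => heat (b / 4) (fun s : ℂ => Xi (I * s)) (-I * w) :=
      funext fun w => EE_heat _ w
    rw [h1]
    exact (slow_heat slow_G hb4.le).1.comp (by fun_prop)
  · rw [EE_heat, EE_heat, mul_neg]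
    exact heat_neg (f := fun s : ℂ => Xi (I * s)) hGn _ _
  · rw [EE_heat, EE_heat]
    rw [← heat_conj (f := fun s : ℂ => Xi (I * s)) hGc, ← heat_neg (f := fun s : ℂ => Xi (I * s)) hGn]
    congr 1
    rw [map_mul, map_neg, conj_I]
    ring

end Pool.Agent.J4H21.NG
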