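import Pool.Agent.J4H4.NG.Stm
import Pool.Agent.J4H8.DN.X
import Pool.Agent.E8helper52.OR.Contour

/-!
# Project NG of helper4: (SH), the shift of the line (helper21)
-/

set_option autoImplicit false

namespace Pool.Agent.J4H21.NG

open Complex MeasureTheory Filter Topology Set
open Pool.Agent.J4H1.JP (Xi)
open Pool.Agent.J4H4.NG

theorem t_SH : S_SH := by
  intro a ha η v
  have hXi := Pool.Agent.J4H8.DN.slow_Xi
  obtain ⟨hXd, hXb⟩ := hXi
  obtain ⟨K, hK, hb⟩ := hXb (1 / (16 * a)) (by positivity)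
  set f : ℂ → ℂ := fun z => Xi (3 / 2 + I * v + z) * cexp ((z - η) ^ 2 / (4 * a)) with hf
  have hfd : Differentiable ℂ f := by
    apply Differentiable.mul
    · exact hXd.comp (by fun_prop)
    · fun_prop
  set C : ℝ := K * Real.exp (1 / (16 * a) * (2 * (9 / 4 + η ^ 2) * 2 + 2 * v ^ 2) + 4 * η ^ 2 / (4 * a)) * (8 * a)
    with hC
  have hC0 : 0 ≤ C := by positivity
  have hbd : ∀ z : ℂ, |z.re| ≤ |η| → 1 ≤ |z.im| → ‖f z‖ ≤ C / z.im ^ 2 := by
    intro z hz hz1
    have hy : 0 < z.im ^ 2 := by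
      have : z.im ≠ 0 := by
        intro h
        rw [h] at hz1
        norm_num at hz1
      positivity
    have hx2 : z.re ^ 2 ≤ η ^ 2 := sq_le_sq.mpr hz
    simp only [hf, norm_mul]
    have e1 : ‖cexp ((z - η) ^ 2 / (4 * a))‖ = Real.exp (((z.re - η) ^ 2 - z.im ^ 2) / (4 * a)) := by
      rw [Complex.norm_exp]
      congr 1
      have : ((z - η) ^ 2 / (4 * a) : ℂ) = (((z.re - η) ^ 2 - z.im ^ 2) / (4 * a) : ℝ) +
          ((2 * (z.re - η) * z.im) / (4 * a) : ℝ) * I := by
        conv_lhs => rw [← Complex.re_add_im z]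
        push_cast
        field_simp
        ring_nf
        rw [Complex.I_sq]
        ring
      rw [this, Complex.add_re, Complex.ofReal_re, Complex.re_ofReal_mul, Complex.I_re, mul_zero,
        add_zero]
    have e2 : ‖(3 / 2 + I * v + z : ℂ)‖ ^ 2 = (3 / 2 + z.re) ^ 2 + (v + z.im) ^ 2 := by
      have : (3 / 2 + I * v + z : ℂ) = ((3 / 2 + z.re : ℝ) : ℂ) + ((v + z.im : ℝ) : ℂ) * I := by
        conv_lhs => rw [← Complex.re_add_im z]
        push_cast
        ring
      rw [this, ← Complex.normSq_eq_norm_sq, Complex.normSq_add_mul_I]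
    have h1 := hb (3 / 2 + I * v + z)
    rw [e2] at h1
    rw [e1]
    have h2 : (3 / 2 + z.re) ^ 2 + (v + z.im) ^ 2 ≤ 2 * (9 / 4 + η ^ 2) * 2 + 2 * v ^ 2 + 2 * z.im ^ 2 := by
      nlinarith [sq_nonneg (3 / 2 - z.re), sq_nonneg (v - z.im), sq_nonneg η]
    have h3 : (z.re - η) ^ 2 ≤ 4 * η ^ 2 := by
      nlinarith [sq_nonneg (z.re + η)]
    have h4 : Real.exp (-(z.im ^ 2 / (8 * a))) ≤ 8 * a / z.im ^ 2 := by
      rw [Real.exp_neg]
      rw [show 8 * a / z.im ^ 2 = (z.im ^ 2 / (8 * a))⁻¹ by rw [inv_div]]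
      apply inv_anti₀ (by positivity)
      have := Real.add_one_le_exp (z.im ^ 2 / (8 * a))
      linarith
    calc ‖Xi (3 / 2 + I * v + z)‖ * Real.exp (((z.re - η) ^ 2 - z.im ^ 2) / (4 * a))
        ≤ (K * Real.exp (1 / (16 * a) * (2 * (9 / 4 + η ^ 2) * 2 + 2 * v ^ 2 + 2 * z.im ^ 2))) *
            Real.exp ((4 * η ^ 2 - z.im ^ 2) / (4 * a)) := by
          apply mul_le_mul _ _ (Real.exp_pos _).le (by positivity)
          · refine h1.trans (mul_le_mul_of_nonneg_left (Real.exp_le_exp.2 ?_) hK.le)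
            exact mul_le_mul_of_nonneg_left h2 (by positivity)
          · apply Real.exp_le_exp.2
            apply div_le_div_of_nonneg_right _ (by positivity)
            linarith
      _ = K * Real.exp (1 / (16 * a) * (2 * (9 / 4 + η ^ 2) * 2 + 2 * v ^ 2) + 4 * η ^ 2 / (4 * a)) *
            Real.exp (-(z.im ^ 2 / (8 * a))) := by
          rw [mul_assoc K, mul_assoc K, ← Real.exp_add, ← Real.exp_add]
          congr 2
          field_simp
          ring
      _ ≤ K * Real.exp (1 / (16 * a) * (2 * (9 / 4 + η ^ 2) * 2 + 2 * v ^ 2) + 4 * η ^ 2 / (4 * a)) *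
            (8 * a / z.im ^ 2) := mul_le_mul_of_nonneg_left h4 (by positivity)
      _ = C / z.im ^ 2 := by
          rw [hC]
          ring
  have hshift : ∫ y : ℝ, f ((0 : ℝ) + y * I) = ∫ y : ℝ, f (η + y * I) := by
    rcases le_total 0 η with h | h
    · refine Pool.Agent.E8helper52.OR.strip_shift h (fun z _ _ => hfd z) hC0 le_rfl ?_
      intro z h1 h2 h3
      refine hbd z ?_ h3
      rw [abs_of_nonneg h1, abs_of_nonneg h]
      exact h2
    · refine (Pool.Agent.E8helper52.OR.strip_shift h (fun z _ _ => hfd z) hC0 le_rfl ?_).symm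
      intro z h1 h2 h3
      refine hbd z ?_ h3
      rw [abs_of_nonpos h2, abs_of_nonpos h]
      linarith
  have hst : 0 < Real.sqrt a := Real.sqrt_pos.2 ha
  have hts : Real.sqrt a * Real.sqrt a = a := Real.mul_self_sqrt ha.le
  have h1 : EE a (((3 / 2 + η : ℝ) : ℂ) + I * v) =
      ((1 / Real.sqrt (4 * Real.pi * a) : ℝ) : ℂ) * ∫ u : ℝ, f (η + u * I) := by
    unfold EE
    have h2 : ∀ x : ℝ, ((Real.exp (-x ^ 2) : ℝ) : ℂ) *
        Xi (((3 / 2 + η : ℝ) : ℂ) + I * v + ((2 * Real.sqrt a * x : ℝ) : ℂ) * I) =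
        (fun u : ℝ => f (η + u * I)) (2 * Real.sqrt a * x) := by
      intro x
      simp only [hf]
      rw [mul_comm]
      congr 1
      · congr 1
        push_cast
        ring
      · rw [Complex.ofReal_exp]
        congr 1
        have e : ((η : ℂ) + ((2 * Real.sqrt a * x : ℝ) : ℂ) * I - η) ^ 2 =
            -(4 * ((Real.sqrt a * Real.sqrt a : ℝ) : ℂ) * x ^ 2) := by
          push_cast
          ring_nf
          rw [Complex.I_sq]
          ring
        rw [e, hts]
        have ha' : (a : ℂ) ≠ 0 := by exact_mod_cast ha.ne'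
        push_cast
        field_simp
    rw [integral_congr_ae (Eventually.of_forall h2),
      Measure.integral_comp_mul_left (fun u : ℝ => f (η + u * I)) (2 * Real.sqrt a), abs_inv,
      abs_of_pos (by positivity : 0 < 2 * Real.sqrt a), Complex.real_smul, ← mul_assoc,
      ← Complex.ofReal_mul]
    congr 2
    rw [show 4 * Real.pi * a = (2 ^ 2 * Real.pi) * a by ring, Real.sqrt_mul (by positivity),
      Real.sqrt_mul (by positivity), Real.sqrt_sq (by norm_num)]
    have := Real.sqrt_pos.2 Real.pi_pos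
    field_simp
  rw [h1, ← hshift]
  have h3 : ∀ u : ℝ, f ((0 : ℝ) + u * I) = ((Real.exp (η ^ 2 / (4 * a)) : ℝ) : ℂ) *
      (Xi (3 / 2 + I * ((v + u : ℝ) : ℂ)) * cexp (-(u : ℂ) ^ 2 / (4 * a) - I * u * η / (2 * a))) := by
    intro u
    have ha' : (a : ℂ) ≠ 0 := by exact_mod_cast ha.ne'
    simp only [hf]
    have e1 : (3 / 2 + I * v + ((0 : ℝ) + u * I) : ℂ) = 3 / 2 + I * ((v + u : ℝ) : ℂ) := by
      push_cast
      ring
    have e2 : (((0 : ℝ) : ℂ) + u * I - η) ^ 2 / (4 * a) =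
        ((η ^ 2 / (4 * a) : ℝ) : ℂ) + (-(u : ℂ) ^ 2 / (4 * a) - I * u * η / (2 * a)) := by
      push_cast
      field_simp
      ring_nf
      rw [Complex.I_sq]
      ring
    rw [e1, e2, Complex.exp_add, Complex.ofReal_exp]
    ring
  rw [integral_congr_ae (Eventually.of_forall h3), integral_const_mul, ← mul_assoc,
    ← Complex.ofReal_mul]
  congr 2
  ring

end Pool.Agent.J4H21.NG
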